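import Mathlib

namespace Pool.Agent.Results.MP_ae2185_co.WadeDisproof

open SimpleGraph

/-- A graph is alpha-critical if deleting any one of its edges increases the independence number. -/
def AlphaCritical {V : Type} (G : SimpleGraph V) : Prop :=
  ∀ e ∈ G.edgeSet, G.indepNum < (G.deleteEdges {e}).indepNum

/-- A graph is strongly alpha-critical if it is alpha-critical and has no isolated vertices. -/
def StronglyAlphaCritical {V : Type} (G : SimpleGraph V) : Prop :=
  AlphaCritical G ∧ ∀ v : V, ∃ w : V, G.Adj v w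

/-- The edge list of the counterexample, as codes `15 * a + b` with `a < b`. -/
def codes : List ℕ :=
  [3, 8, 12, 18, 19, 22, 26, 36, 38, 39, 40, 57, 71, 74, 82, 86, 87, 88, 99, 100, 101, 114, 118,
    130, 145, 209]

/-- Adjacency test. -/
def adjB (a b : Fin 15) : Bool :=
  codes.contains (15 * min a.val b.val + max a.val b.val)

/-- The counterexample graph on 15 vertices. -/
def G : SimpleGraph (Fin 15) where
  Adj a b := a ≠ b ∧ adjB a b = true
  symm := ⟨fun a b h => ⟨h.1.symm, by
    have := h.2
    unfold adjB at this ⊢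
    rwa [min_comm, max_comm] at this⟩⟩
  loopless := ⟨fun a h => h.1 rfl⟩

instance : DecidableRel G.Adj := fun a b => by
  unfold G
  exact inferInstanceAs (Decidable (a ≠ b ∧ adjB a b = true))

/-- Upper bound for the size of an independent subset of the list `L`. -/
def mis : ℕ → List (Fin 15) → ℕ
  | 0, L => L.length
  | _ + 1, [] => 0
  | f + 1, v :: L => max (mis f L) (1 + mis f (L.filter fun w => !adjB v w))

theorem card_le_mis (f : ℕ) : ∀ (L : List (Fin 15)) (S : Finset (Fin 15)),
    (∀ v ∈ S, v ∈ L) → G.IsIndepSet (S : Set (Fin 15)) → S.card ≤ mis f L := by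
  induction f with
  | zero =>
    intro L S hS _
    have : S ⊆ L.toFinset := fun v hv => by simpa using hS v hv
    calc S.card ≤ L.toFinset.card := Finset.card_le_card this
      _ ≤ L.length := L.toFinset_card_le
      _ = mis 0 L := rfl
  | succ f ih =>
    intro L S hS hI
    cases L with
    | nil =>
      have : S = ∅ := by
        apply Finset.eq_empty_of_forall_notMem
        intro v hv
        simpa using hS v hv
      simp [this]
    | cons v L =>
      by_cases hv : v ∈ S
      · have h1 : (S.erase v).card ≤ mis f (L.filter fun w => !adjB v w) := by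
          apply ih
          · intro w hw
            have hwS := Finset.mem_of_mem_erase hw
            have hne : w ≠ v := Finset.ne_of_mem_erase hw
            have hwL := hS w hwS
            rw [List.mem_cons] at hwL
            rw [List.mem_filter]
            refine ⟨hwL.resolve_left hne, ?_⟩
            have := hI (Finset.mem_coe.mpr hv) (Finset.mem_coe.mpr hwS) hne.symm
            cases hb : adjB v w with
            | false => rfl
            | true => exact absurd ⟨hne.symm, hb⟩ this
          · intro a ha b hb hab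
            exact hI (Finset.mem_coe.mpr (Finset.mem_of_mem_erase (Finset.mem_coe.mp ha)))
              (Finset.mem_coe.mpr (Finset.mem_of_mem_erase (Finset.mem_coe.mp hb))) hab
        have h2 : S.card = 1 + (S.erase v).card := by
          rw [Finset.card_erase_of_mem hv]
          have : 0 < S.card := Finset.card_pos.mpr ⟨v, hv⟩
          omega
        have h3 : mis (f + 1) (v :: L) =
            max (mis f L) (1 + mis f (L.filter fun w => !adjB v w)) := rfl
        rw [h2, h3]
        exact le_max_of_le_right (by omega)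
      · have h1 : S.card ≤ mis f L := by
          apply ih
          · intro w hw
            have hwL := hS w hw
            rw [List.mem_cons] at hwL
            rcases hwL with h | h
            · exact absurd (h ▸ hw) hv
            · exact h
          · exact hI
        have h3 : mis (f + 1) (v :: L) =
            max (mis f L) (1 + mis f (L.filter fun w => !adjB v w)) := rfl
        rw [h3]
        exact le_max_of_le_left h1

/-- All vertices. -/
def allV : List (Fin 15) := [0, 1, 2, 3, 4, 5, 6, 7, 8, 9, 10, 11, 12, 13, 14]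

/-- All vertices but `8` and `14`. -/
def someV : List (Fin 15) := [0, 1, 2, 3, 4, 5, 6, 7, 9, 10, 11, 12, 13]

theorem mis_all : mis 15 allV = 5 := by decide +kernel

theorem mis_some : mis 15 someV = 4 := by decide +kernel

/-- Witnesses for criticality: for each edge an independent set of size six of the graph
with that edge deleted. -/
def wit : List (Fin 15 × Fin 15 × Finset (Fin 15)) :=
  [(0, 3, {0, 2, 3, 7, 11, 14}),
    (0, 8, {0, 1, 5, 6, 8, 14}),
    (0, 12, {0, 2, 7, 11, 12, 14}),
    (1, 3, {1, 3, 5, 6, 8, 14}),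
    (1, 4, {1, 4, 6, 8, 12, 13}),
    (1, 7, {1, 6, 7, 8, 12, 14}),
    (1, 11, {1, 8, 9, 11, 12, 13}),
    (2, 6, {0, 1, 2, 5, 6, 14}),
    (2, 8, {2, 3, 7, 8, 11, 14}),
    (2, 9, {0, 1, 2, 5, 9, 14}),
    (2, 10, {0, 1, 2, 5, 10, 14}),
    (3, 12, {3, 4, 6, 7, 8, 12}),
    (4, 14, {3, 4, 5, 6, 8, 14}),
    (4, 11, {3, 4, 8, 9, 11, 13}),
    (5, 7, {3, 4, 5, 6, 7, 8}),
    (5, 11, {3, 5, 8, 9, 11, 14}),
    (5, 12, {1, 5, 6, 8, 12, 14}),
    (5, 13, {3, 4, 5, 6, 8, 13}),
    (6, 9, {3, 4, 5, 6, 8, 9}),
    (6, 10, {0, 1, 5, 6, 10, 14}),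
    (6, 11, {3, 6, 7, 8, 11, 14}),
    (7, 9, {3, 7, 8, 9, 11, 14}),
    (7, 13, {3, 4, 6, 7, 8, 13}),
    (8, 10, {3, 7, 8, 10, 11, 14}),
    (13, 14, {3, 8, 9, 11, 13, 14}),
    (9, 10, {0, 1, 5, 9, 10, 14})]

theorem wit_ok : ∀ p ∈ wit, p.2.2.card = 6 ∧
    ∀ u ∈ p.2.2, ∀ v ∈ p.2.2, adjB u v = true →
      (u = p.1 ∧ v = p.2.1) ∨ (u = p.2.1 ∧ v = p.1) := by
  decide +kernel

theorem wit_all : ∀ a b : Fin 15, a < b → adjB a b = true →
    ∃ p ∈ wit, (a = p.1 ∧ b = p.2.1) ∨ (a = p.2.1 ∧ b = p.1) := by
  decide +kernel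

theorem indep_le (S : Finset (Fin 15)) (h : G.IsIndepSet (S : Set (Fin 15))) : S.card ≤ 5 := by
  have h0 : ∀ v : Fin 15, v ∈ allV := by decide
  have := card_le_mis 15 allV S (fun v _ => h0 v) h
  rwa [mis_all] at this

theorem indep_le_of_avoid (S : Finset (Fin 15)) (h : G.IsIndepSet (S : Set (Fin 15)))
    (h8 : (8 : Fin 15) ∉ S) (h14 : (14 : Fin 15) ∉ S) : S.card ≤ 4 := by
  have h0 : ∀ v : Fin 15, v ≠ 8 → v ≠ 14 → v ∈ someV := by decide
  have h1 : ∀ v ∈ S, v ∈ someV := by
    intro v hv
    exact h0 v (fun e => h8 (e ▸ hv)) (fun e => h14 (e ▸ hv))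
  have := card_le_mis 15 someV S h1 h
  rwa [mis_some] at this

theorem indep_five : G.IsIndepSet (({3, 4, 5, 6, 8} : Finset (Fin 15)) : Set (Fin 15)) := by
  have : ∀ u ∈ ({3, 4, 5, 6, 8} : Finset (Fin 15)), ∀ v ∈ ({3, 4, 5, 6, 8} : Finset (Fin 15)),
      adjB u v = false := by decide
  intro u hu v hv _ hadj
  have h1 := this u (Finset.mem_coe.mp hu) v (Finset.mem_coe.mp hv)
  rw [hadj.2] at h1
  exact absurd h1 (by decide)

theorem indepNum_G : G.indepNum = 5 := by
  apply le_antisymm
  · obtain ⟨s, hs⟩ := G.exists_isNIndepSet_indepNum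
    rw [← hs.card_eq]
    exact indep_le s hs.isIndepSet
  · have := indep_five.card_le_indepNum
    simpa using this

theorem crit : AlphaCritical G := by
  have key : ∀ a b : Fin 15, a < b → adjB a b = true →
      G.indepNum < (G.deleteEdges {s(a, b)}).indepNum := by
    intro a b hab hadj
    obtain ⟨p, hp, hpe⟩ := wit_all a b hab hadj
    obtain ⟨hc, hi⟩ := wit_ok p hp
    have hind : (G.deleteEdges {s(a, b)}).IsIndepSet (p.2.2 : Set (Fin 15)) := by
      intro u hu v hv _ huv
      rw [SimpleGraph.deleteEdges_adj] at huv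
      have h2 := hi u (Finset.mem_coe.mp hu) v (Finset.mem_coe.mp hv) huv.1.2
      apply huv.2
      rw [Set.mem_singleton_iff, Sym2.eq_iff]
      rcases hpe with ⟨h3, h4⟩ | ⟨h3, h4⟩
      · rw [h3, h4]; exact h2
      · rw [h3, h4]; tauto
    have := hind.card_le_indepNum
    rw [hc] at this
    rw [indepNum_G]
    omega
  intro e he
  induction e using Sym2.ind with
  | _ a b =>
    rw [SimpleGraph.mem_edgeSet] at he
    rcases lt_or_gt_of_ne he.1 with h | h
    · exact key a b h he.2
    · have := key b a h he.symm.2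
      rwa [Sym2.eq_swap] at this

theorem no_isolated : ∀ v : Fin 15, ∃ w : Fin 15, G.Adj v w := by
  have : ∀ v : Fin 15, ∃ w : Fin 15, v ≠ w ∧ adjB v w = true := by decide
  exact this

theorem conn : G.Connected := by
  have h0 : G.Reachable 8 8 := Reachable.refl 8
  have st : ∀ u v : Fin 15, G.Reachable 8 u → G.Adj u v → G.Reachable 8 v :=
    fun u v h1 h2 => h1.trans h2.reachable
  have a0 := st 8 0 h0 (by decide)
  have a2 := st 8 2 h0 (by decide)
  have a10 := st 8 10 h0 (by decide)
  have a3 := st 0 3 a0 (by decide)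
  have a12 := st 0 12 a0 (by decide)
  have a6 := st 2 6 a2 (by decide)
  have a9 := st 2 9 a2 (by decide)
  have a1 := st 3 1 a3 (by decide)
  have a5 := st 12 5 a12 (by decide)
  have a11 := st 6 11 a6 (by decide)
  have a7 := st 9 7 a9 (by decide)
  have a4 := st 1 4 a1 (by decide)
  have a13 := st 5 13 a5 (by decide)
  have a14 := st 4 14 a4 (by decide)
  have hall : ∀ v : Fin 15, G.Reachable 8 v := by
    intro v
    fin_cases v <;> assumption
  exact { preconnected := fun u v => (hall u).symm.trans (hall v), nonempty := ⟨0⟩ }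

theorem two_le_ncard (v a b : Fin 15) (hab : a ≠ b) (ha : G.Adj v a) (hb : G.Adj v b) :
    2 ≤ (G.neighborSet v).ncard := by
  have h1 : ({a, b} : Set (Fin 15)).ncard = 2 := Set.ncard_pair hab
  rw [← h1]
  apply Set.ncard_le_ncard _ (Set.toFinite _)
  intro w hw
  rcases hw with h | h
  · rw [h]; exact ha
  · rw [Set.mem_singleton_iff.mp h]; exact hb

/-- Wade's question has a negative answer: there is a connected strongly alpha-critical graph
(on 15 vertices) with two distinct vertices of degree at least two such that every maximum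
independent set contains one of them. -/
theorem result : ∃ (n : ℕ) (G : SimpleGraph (Fin n)),
    StronglyAlphaCritical G ∧ G.Connected ∧
    ∃ x y : Fin n, x ≠ y ∧ 2 ≤ (G.neighborSet x).ncard ∧ 2 ≤ (G.neighborSet y).ncard ∧
      ∀ S : Finset (Fin n), G.IsMaximumIndepSet S → x ∈ S ∨ y ∈ S := by
  refine ⟨15, G, ⟨crit, no_isolated⟩, conn, 8, 14, by decide,
    two_le_ncard 8 0 2 (by decide) (by decide) (by decide),
    two_le_ncard 14 4 13 (by decide) (by decide) (by decide), ?_⟩
  · intro S hS
    by_contra hcon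
    push Not at hcon
    have h1 := indep_le_of_avoid S hS.isIndepSet hcon.1 hcon.2
    have h2 := hS.maximum _ indep_five
    have h3 : ({3, 4, 5, 6, 8} : Finset (Fin 15)).card = 5 := by decide
    omega

end Pool.Agent.Results.MP_ae2185_co.WadeDisproof
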